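import Pool.Agent.Y52.SJ.Stm3

/-!
# Project SJ, job SHR: the shear by the gradient of a potential in logarithmic coordinates
-/

set_option autoImplicit false

namespace Pool.Agent.Y761.SJ

open Pool.Agent.Y52.SJ

/-- The open positive orthant. -/
def Ort (m : ℕ) : Set (Fin m → ℝ) := {I | ∀ i, 0 < I i}

theorem isOpen_Ort (m : ℕ) : IsOpen (Ort m) := by
  have h : Ort m = ⋂ i, {I : Fin m → ℝ | 0 < I i} := by
    ext I
    simp [Ort]
  rw [h]
  exact isOpen_iInter_of_finite fun i => isOpen_lt continuous_const (continuous_apply i)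

theorem isOpen_Ort2 (m : ℕ) : IsOpen {z : (Fin m → ℝ) × (Fin m → ℝ) | ∀ i, 0 < z.2 i} :=
  (isOpen_Ort m).preimage continuous_snd

section
variable {m : ℕ} {V : (Fin m → ℝ) → ℝ}

theorem smooth_fderiv (hV : ContDiffOn ℝ ((⊤ : ℕ∞) : WithTop ℕ∞) V (Ort m)) :
    ContDiffOn ℝ ((⊤ : ℕ∞) : WithTop ℕ∞) (fderiv ℝ V) (Ort m) :=
  hV.fderiv_of_isOpen (isOpen_Ort m) (by simp)

theorem smooth_G (hV : ContDiffOn ℝ ((⊤ : ℕ∞) : WithTop ℕ∞) V (Ort m)) (k : Fin m) :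
    ContDiffOn ℝ ((⊤ : ℕ∞) : WithTop ℕ∞) (fun I => fderiv ℝ V I (Pi.single k 1)) (Ort m) :=
  (smooth_fderiv hV).clm_apply contDiffOn_const

theorem smooth_shr (hV : ContDiffOn ℝ ((⊤ : ℕ∞) : WithTop ℕ∞) V (Ort m)) :
    ContDiffOn ℝ ((⊤ : ℕ∞) : WithTop ℕ∞) (shr V)
      {z : (Fin m → ℝ) × (Fin m → ℝ) | ∀ i, 0 < z.2 i} := by
  have hG : ∀ k : Fin m, ContDiffOn ℝ ((⊤ : ℕ∞) : WithTop ℕ∞)
      (fun z : (Fin m → ℝ) × (Fin m → ℝ) => fderiv ℝ V z.2 (Pi.single k 1))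
      {z : (Fin m → ℝ) × (Fin m → ℝ) | ∀ i, 0 < z.2 i} := fun k =>
    (smooth_G hV k).comp contDiff_snd.contDiffOn (fun z hz => hz)
  have h1 : ∀ k : Fin m, ContDiffOn ℝ ((⊤ : ℕ∞) : WithTop ℕ∞)
      (fun z : (Fin m → ℝ) × (Fin m → ℝ) => z.1 k)
      {z : (Fin m → ℝ) × (Fin m → ℝ) | ∀ i, 0 < z.2 i} := fun k =>
    ((contDiff_apply ℝ ℝ k).comp contDiff_fst).contDiffOn
  have h2 : ∀ k : Fin m, ContDiffOn ℝ ((⊤ : ℕ∞) : WithTop ℕ∞)
      (fun z : (Fin m → ℝ) × (Fin m → ℝ) => z.2 k)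
      {z : (Fin m → ℝ) × (Fin m → ℝ) | ∀ i, 0 < z.2 i} := fun k =>
    ((contDiff_apply ℝ ℝ k).comp contDiff_snd).contDiffOn
  refine ContDiffOn.prodMk (contDiffOn_pi.2 fun k => ?_) (contDiffOn_pi.2 fun k => ?_)
  · exact Real.contDiff_exp.comp_contDiffOn (((h1 k).sub contDiffOn_const).add (hG k))
  · exact (h2 k).mul (Real.contDiff_exp.comp_contDiffOn ((h1 k).neg.sub (hG k)))

theorem shr_mul (V : (Fin m → ℝ) → ℝ) (z : (Fin m → ℝ) × (Fin m → ℝ)) (k : Fin m) :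
    (shr V z).1 k * (shr V z).2 k = Real.exp (-1) * z.2 k := by
  simp only [shr]
  rw [mul_left_comm, ← Real.exp_add]
  rw [mul_comm]
  congr 2
  ring

theorem shr_mul' (V : (Fin m → ℝ) → ℝ) (z : (Fin m → ℝ) × (Fin m → ℝ)) (k : Fin m) :
    (shr V z).1 k * Real.exp (-(z.1 k) - fderiv ℝ V z.2 (Pi.single k 1)) = Real.exp (-1) := by
  simp only [shr]
  rw [← Real.exp_add]
  congr 1
  ring

theorem inj_shr (V : (Fin m → ℝ) → ℝ) :
    Function.Injective (shr V) := by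
  intro z z' h
  have h2 : z.2 = z'.2 := by
    funext k
    have e1 := shr_mul V z k
    have e2 := shr_mul V z' k
    rw [h, e2] at e1
    exact (mul_left_cancel₀ (Real.exp_pos _).ne' e1).symm
  have h1 : z.1 = z'.1 := by
    funext k
    have e : (shr V z).1 k = (shr V z').1 k := by rw [h]
    simp only [shr] at e
    have e' := Real.exp_injective e
    rw [h2] at e'
    linarith
  exact Prod.ext h1 h2

theorem fderiv_shr (hV : ContDiffOn ℝ ((⊤ : ℕ∞) : WithTop ℕ∞) V (Ort m))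
    (z : (Fin m → ℝ) × (Fin m → ℝ)) (hz : ∀ i, 0 < z.2 i) (u : (Fin m → ℝ) × (Fin m → ℝ)) :
    fderiv ℝ (shr V) z u =
      (fun k => (shr V z).1 k * (u.1 k + fderiv ℝ (fderiv ℝ V) z.2 u.2 (Pi.single k 1)),
        fun k => Real.exp (-(z.1 k) - fderiv ℝ V z.2 (Pi.single k 1)) * u.2 k -
          (shr V z).2 k * (u.1 k + fderiv ℝ (fderiv ℝ V) z.2 u.2 (Pi.single k 1))) := by
  have hd : DifferentiableAt ℝ (shr V) z :=
    ((smooth_shr hV).contDiffAt ((isOpen_Ort2 m).mem_nhds hz)).differentiableAt (by simp)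
  have hF : DifferentiableAt ℝ (fderiv ℝ V) z.2 :=
    ((smooth_fderiv hV).contDiffAt ((isOpen_Ort m).mem_nhds hz)).differentiableAt (by simp)
  have l : HasDerivAt (fun t : ℝ => z + t • u) u 0 := by
    simpa using ((hasDerivAt_id (0 : ℝ)).smul_const u).const_add z
  have l2 : HasDerivAt (fun t : ℝ => z.2 + t • u.2) u.2 0 := by
    simpa using ((hasDerivAt_id (0 : ℝ)).smul_const u.2).const_add z.2
  have A : HasDerivAt (fun t : ℝ => shr V (z + t • u)) (fderiv ℝ (shr V) z u) 0 := by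
    have hd' : HasFDerivAt (shr V) (fderiv ℝ (shr V) z) (z + (0 : ℝ) • u) := by
      simpa using hd.hasFDerivAt
    exact hd'.comp_hasDerivAt (0 : ℝ) l
  have B : ∀ k : Fin m, HasDerivAt (fun t : ℝ => fderiv ℝ V (z.2 + t • u.2) (Pi.single k 1))
      (fderiv ℝ (fderiv ℝ V) z.2 u.2 (Pi.single k 1)) 0 := by
    intro k
    have hF' : HasFDerivAt (fderiv ℝ V) (fderiv ℝ (fderiv ℝ V) z.2) (z.2 + (0 : ℝ) • u.2) := by
      simpa using hF.hasFDerivAt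
    exact ((ContinuousLinearMap.apply ℝ ℝ
      (Pi.single k (1 : ℝ) : Fin m → ℝ)).hasFDerivAt (x := fderiv ℝ V (z.2 + (0 : ℝ) • u.2))
        ).comp_hasDerivAt (0 : ℝ) (hF'.comp_hasDerivAt (0 : ℝ) l2)
  have C1 : ∀ k : Fin m, HasDerivAt (fun t : ℝ => z.1 k + t * u.1 k) (u.1 k) 0 := by
    intro k
    simpa using ((hasDerivAt_id (0 : ℝ)).mul_const (u.1 k)).const_add (z.1 k)
  have C2 : ∀ k : Fin m, HasDerivAt (fun t : ℝ => z.2 k + t * u.2 k) (u.2 k) 0 := by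
    intro k
    simpa using ((hasDerivAt_id (0 : ℝ)).mul_const (u.2 k)).const_add (z.2 k)
  refine A.unique (HasDerivAt.prodMk (hasDerivAt_pi.2 fun k => ?_) (hasDerivAt_pi.2 fun k => ?_))
  · have := (((C1 k).sub_const 1).add (B k)).exp
    simpa [shr] using this
  · have := (C2 k).mul (((C1 k).neg.sub (B k)).exp)
    refine (this.congr_deriv ?_)
    simp only [shr, zero_mul, zero_smul, add_zero, Pi.neg_apply, Pi.sub_apply]
    ring

end

theorem main : Pool.Agent.Y52.SJ.S_SHR := by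
  intro m V hV
  refine ⟨smooth_shr hV, (inj_shr V).injOn, ?_⟩
  intro z hz u v
  rw [fderiv_shr hV z hz u, fderiv_shr hV z hz v]
  have sym : fderiv ℝ (fderiv ℝ V) z.2 u.2 v.2 = fderiv ℝ (fderiv ℝ V) z.2 v.2 u.2 := by
    have hc : ContDiffAt ℝ ((⊤ : ℕ∞) : WithTop ℕ∞) V z.2 :=
      hV.contDiffAt ((isOpen_Ort m).mem_nhds hz)
    have h2 : minSmoothness ℝ 2 ≤ ((⊤ : ℕ∞) : WithTop ℕ∞) := by
      rw [minSmoothness_of_isRCLikeNormedField]
      have h3 : ((2 : ℕ∞) : WithTop ℕ∞) ≤ ((⊤ : ℕ∞) : WithTop ℕ∞) := WithTop.coe_le_coe.2 le_top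
      exact h3
    exact (hc.isSymmSndFDerivAt h2) u.2 v.2
  have ex : ∀ w w' : Fin m → ℝ, fderiv ℝ (fderiv ℝ V) z.2 w w' =
      ∑ k, w' k * fderiv ℝ (fderiv ℝ V) z.2 w (Pi.single k 1) := by
    intro w w'
    conv_lhs => rw [pi_eq_sum_univ' w']
    rw [map_sum]
    refine Finset.sum_congr rfl fun k _ => ?_
    rw [map_smul, smul_eq_mul]
  rw [ex, ex] at sym
  simp only [std]
  rw [Finset.mul_sum]
  have key : ∀ k : Fin m,
      (shr V z).1 k * (u.1 k + fderiv ℝ (fderiv ℝ V) z.2 u.2 (Pi.single k 1)) *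
          (Real.exp (-(z.1 k) - fderiv ℝ V z.2 (Pi.single k 1)) * v.2 k -
            (shr V z).2 k * (v.1 k + fderiv ℝ (fderiv ℝ V) z.2 v.2 (Pi.single k 1))) -
        (Real.exp (-(z.1 k) - fderiv ℝ V z.2 (Pi.single k 1)) * u.2 k -
            (shr V z).2 k * (u.1 k + fderiv ℝ (fderiv ℝ V) z.2 u.2 (Pi.single k 1))) *
          ((shr V z).1 k * (v.1 k + fderiv ℝ (fderiv ℝ V) z.2 v.2 (Pi.single k 1))) =
      Real.exp (-1) * (u.1 k * v.2 k - u.2 k * v.1 k) +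
        Real.exp (-1) * (v.2 k * fderiv ℝ (fderiv ℝ V) z.2 u.2 (Pi.single k 1)) -
        Real.exp (-1) * (u.2 k * fderiv ℝ (fderiv ℝ V) z.2 v.2 (Pi.single k 1)) := by
    intro k
    have h := shr_mul' V z k
    linear_combination ((u.1 k + fderiv ℝ (fderiv ℝ V) z.2 u.2 (Pi.single k 1)) * v.2 k -
      u.2 k * (v.1 k + fderiv ℝ (fderiv ℝ V) z.2 v.2 (Pi.single k 1))) * h
  rw [Finset.sum_congr rfl fun k _ => key k, Finset.sum_sub_distrib, Finset.sum_add_distrib,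
    ← Finset.mul_sum (f := fun k => v.2 k * fderiv ℝ (fderiv ℝ V) z.2 u.2 (Pi.single k 1)),
    ← Finset.mul_sum (f := fun k => u.2 k * fderiv ℝ (fderiv ℝ V) z.2 v.2 (Pi.single k 1)), sym]
  ring

end Pool.Agent.Y761.SJ
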